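import Mathlib

/-!
# RE, block R2: a simple real root persists under a small rational change of the parameters
-/

set_option autoImplicit false

namespace Pool.Agent.Helper26.RE

open Polynomial Filter Topology

noncomputable section

/-- the value of the fraction `Nn c / Dd c` at `t` -/
def val {r : ℕ} (Nn Dd : ℝ → MvPolynomial (Fin r) ℚ) (t : Fin r → ℝ) (c : ℝ) : ℝ :=
  MvPolynomial.aeval t (Nn c) / MvPolynomial.aeval t (Dd c)

private theorem cont_aeval46 {r : ℕ} (q : MvPolynomial (Fin r) ℚ) : Continuous fun t : Fin r → ℝ => MvPolynomial.aeval t q := by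
  have h : (fun t : Fin r → ℝ => MvPolynomial.aeval t q) =
      fun t => MvPolynomial.eval t (MvPolynomial.map (algebraMap ℚ ℝ) q) := by
    funext t
    rw [MvPolynomial.eval_map, MvPolynomial.aeval_def]
  rw [h]
  exact MvPolynomial.continuous_eval _

/-- the value of the polynomial with the changed coefficients -/
private def fv46 {r : ℕ} (Nn Dd : ℝ → MvPolynomial (Fin r) ℚ) (P : ℝ[X]) (s : Fin r → ℝ) (x : ℝ) : ℝ :=
  ∑ n ∈ Finset.range (P.natDegree + 1), val Nn Dd s (P.coeff n) * x ^ n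

private theorem fv_at46 {r : ℕ} {t : Fin r → ℝ} {U : Finset ℝ} {Nn Dd : ℝ → MvPolynomial (Fin r) ℚ}
    (hc : ∀ c ∈ U, val Nn Dd t c = c) {P : ℝ[X]} (hP : ∀ n, P.coeff n ∈ U) (x : ℝ) : fv46 Nn Dd P t x = P.eval x := by
  unfold fv46
  rw [Polynomial.eval_eq_sum_range]
  exact Finset.sum_congr rfl fun n _ => by rw [hc _ (hP n)]

private theorem fv_cont46 {r : ℕ} {t : Fin r → ℝ} {U : Finset ℝ} {Nn Dd : ℝ → MvPolynomial (Fin r) ℚ}
    (hD : ∀ c ∈ U, MvPolynomial.aeval t (Dd c) ≠ 0) {P : ℝ[X]} (hP : ∀ n, P.coeff n ∈ U) (x : ℝ) :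
    ContinuousAt (fun z : (Fin r → ℝ) × ℝ => fv46 Nn Dd P z.1 z.2) (t, x) := by
  unfold fv46 val
  refine tendsto_finsetSum _ fun n _ => ?_
  refine ContinuousAt.mul (ContinuousAt.div ?_ ?_ (hD _ (hP n))) (continuousAt_snd.pow n)
  · exact ((cont_aeval46 _).continuousAt).comp continuousAt_fst
  · exact ((cont_aeval46 _).continuousAt).comp continuousAt_fst

/-- **R2** (analysis): a simple real root persists under a small rational change of the parameters -/
theorem real_spec {r : ℕ} (t : Fin r → ℝ) (U : Finset ℝ) (Nn Dd : ℝ → MvPolynomial (Fin r) ℚ)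
    (hD : ∀ c ∈ U, MvPolynomial.aeval t (Dd c) ≠ 0) (hc : ∀ c ∈ U, val Nn Dd t c = c)
    (P : ℝ[X]) (hP : ∀ n, P.coeff n ∈ U) (η : ℝ) (h0 : P.eval η = 0) (h1 : P.derivative.eval η ≠ 0)
    (S : Finset ℝ[X]) (hS : ∀ G ∈ S, (∀ n, G.coeff n ∈ U) ∧ G.eval η ≠ 0) :
    ∃ (t' : Fin r → ℚ) (η' : ℝ), (∀ c ∈ U, MvPolynomial.aeval (fun j => (t' j : ℝ)) (Dd c) ≠ 0) ∧
      ∑ n ∈ Finset.range (P.natDegree + 1), val Nn Dd (fun j => (t' j : ℝ)) (P.coeff n) * η' ^ n = 0 ∧
      ∀ G ∈ S, ∑ n ∈ Finset.range (G.natDegree + 1), val Nn Dd (fun j => (t' j : ℝ)) (G.coeff n) * η' ^ n ≠ 0 := by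
  -- the signs of `P` near `η`
  have hslope : Tendsto (slope (fun x => P.eval x) η) (𝓝[≠] η) (𝓝 (P.derivative.eval η)) :=
    hasDerivAt_iff_tendsto_slope.1 (P.hasDerivAt η)
  have hpos : ∀ᶠ x in 𝓝[≠] η, 0 < P.derivative.eval η * slope (fun x => P.eval x) η x := by
    have h2 := (tendsto_const_nhds (x := P.derivative.eval η)).mul hslope
    exact h2.eventually (lt_mem_nhds (mul_self_pos.2 h1))
  have hG : ∀ᶠ x in 𝓝 η, ∀ G ∈ S, G.eval x ≠ 0 := by
    rw [Filter.eventually_all_finset]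
    intro G hG
    exact G.continuous.continuousAt.eventually_ne (hS G hG).2
  obtain ⟨ε, hε, h2⟩ := Metric.eventually_nhds_iff.1 ((eventually_nhdsWithin_iff.1 hpos).and hG)
  have hsign : ∀ x, |x - η| < ε → x ≠ η → 0 < P.derivative.eval η * P.eval x * (x - η) := by
    intro x hx hne
    have h3 := (h2 (by rwa [Real.dist_eq])).1 hne
    rw [slope_def_field, h0, sub_zero] at h3
    have h4 : 0 < (x - η) ^ 2 := by
      have : x - η ≠ 0 := sub_ne_zero.2 hne
      positivity
    have h5 := mul_pos h3 h4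
    have e : P.derivative.eval η * (P.eval x / (x - η)) * (x - η) ^ 2 = P.derivative.eval η * P.eval x * (x - η) := by
      have : x - η ≠ 0 := sub_ne_zero.2 hne
      field_simp
    rwa [e] at h5
  obtain ⟨a, ha⟩ : ∃ a, a = η - ε / 2 := ⟨_, rfl⟩
  obtain ⟨b, hb⟩ : ∃ b, b = η + ε / 2 := ⟨_, rfl⟩
  have hab : a ≤ b := by linarith
  have hin : ∀ x ∈ Set.Icc a b, |x - η| < ε := fun x hx => by
    rw [abs_lt]
    constructor <;> linarith [hx.1, hx.2]
  have ha1 := hsign a (hin a (Set.left_mem_Icc.2 hab)) (by linarith)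
  have hb1 := hsign b (hin b (Set.right_mem_Icc.2 hab)) (by linarith)
  have hPab : P.eval a * P.eval b < 0 := by
    have h3 : P.derivative.eval η * P.eval a < 0 := by
      have : a - η < 0 := by linarith
      by_contra h4
      push Not at h4
      nlinarith
    have h4 : 0 < P.derivative.eval η * P.eval b := by
      have : 0 < b - η := by linarith
      by_contra h5
      push Not at h5
      nlinarith
    have h5 : 0 < (P.derivative.eval η) ^ 2 := by positivity
    have h6 : (P.derivative.eval η) ^ 2 * (P.eval a * P.eval b) < 0 := by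
      have e : (P.derivative.eval η) ^ 2 * (P.eval a * P.eval b) =
        (P.derivative.eval η * P.eval a) * (P.derivative.eval η * P.eval b) := by ring
      rw [e]
      exact mul_neg_of_neg_of_pos h3 h4
    by_contra h7
    push Not at h7
    nlinarith
  -- all conditions are open
  have hE1 : ∀ᶠ s in 𝓝 t, ∀ c ∈ U, MvPolynomial.aeval s (Dd c) ≠ 0 := by
    rw [Filter.eventually_all_finset]
    intro c hcU
    exact (cont_aeval46 _).continuousAt.eventually_ne (hD c hcU)
  have hE2 : ∀ᶠ s in 𝓝 t, fv46 Nn Dd P s a * fv46 Nn Dd P s b < 0 := by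
    have c1 : ContinuousAt (fun s => fv46 Nn Dd P s a) t :=
      (fv_cont46 hD hP a).comp (f := fun s => ((s, a) : (Fin r → ℝ) × ℝ)) (continuousAt_id.prodMk continuousAt_const)
    have c2 : ContinuousAt (fun s => fv46 Nn Dd P s b) t :=
      (fv_cont46 hD hP b).comp (f := fun s => ((s, b) : (Fin r → ℝ) × ℝ)) (continuousAt_id.prodMk continuousAt_const)
    have c3 : Tendsto (fun s => fv46 Nn Dd P s a * fv46 Nn Dd P s b) (𝓝 t) (𝓝 (fv46 Nn Dd P t a * fv46 Nn Dd P t b)) := c1.mul c2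
    rw [fv_at46 hc hP, fv_at46 hc hP] at c3
    exact c3.eventually (gt_mem_nhds hPab)
  have hE3 : ∀ᶠ s in 𝓝 t, ∀ x ∈ Set.Icc a b, ∀ G ∈ S, fv46 Nn Dd G s x ≠ 0 := by
    refine IsCompact.eventually_forall_of_forall_eventually isCompact_Icc fun x hx => ?_
    rw [Filter.eventually_all_finset]
    intro G hG1
    have c1 : ContinuousAt (fun z : (Fin r → ℝ) × ℝ => fv46 Nn Dd G z.1 z.2) (t, x) := fv_cont46 hD (hS G hG1).1 x
    refine c1.eventually_ne ?_
    simp only
    rw [fv_at46 hc (hS G hG1).1]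
    exact (h2 (by rw [Real.dist_eq]; exact hin x hx)).2 G hG1
  -- a rational point
  have hdense : DenseRange (fun t' : Fin r → ℚ => fun j => (t' j : ℝ)) :=
    DenseRange.piMap fun _ => Rat.denseRange_cast
  obtain ⟨t', h3⟩ := hdense.exists_mem_open isOpen_interior ⟨t, mem_interior_iff_mem_nhds.2 ((hE1.and hE2).and hE3)⟩
  obtain ⟨⟨h4, h5⟩, h6⟩ := interior_subset h3
  have hcont : ContinuousOn (fun x => fv46 Nn Dd P (fun j => (t' j : ℝ)) x) (Set.Icc a b) := by
    unfold fv46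
    fun_prop
  have hroot : ∃ η' ∈ Set.Icc a b, fv46 Nn Dd P (fun j => (t' j : ℝ)) η' = 0 := by
    rcases lt_or_ge (fv46 Nn Dd P (fun j => (t' j : ℝ)) a) 0 with h7 | h7
    · have h8 : 0 < fv46 Nn Dd P (fun j => (t' j : ℝ)) b := by
        by_contra h9
        push Not at h9
        nlinarith
      obtain ⟨x, hx, h9⟩ := intermediate_value_Icc hab hcont ⟨h7.le, h8.le⟩
      exact ⟨x, hx, h9⟩
    · have h8 : fv46 Nn Dd P (fun j => (t' j : ℝ)) b < 0 := by
        by_contra h9
        push Not at h9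
        nlinarith
      obtain ⟨x, hx, h9⟩ := intermediate_value_Icc' hab hcont ⟨h8.le, h7⟩
      exact ⟨x, hx, h9⟩
  obtain ⟨η', hη', h7⟩ := hroot
  exact ⟨t', η', h4, h7, fun G hG1 => h6 η' hη' G hG1⟩

end

end Pool.Agent.Helper26.RE
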